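import Pool.Agent.Helper29_ZAR.Tools
import Pool.Agent.ZEQ.Gen

/-!
# Existence of secant surfaces: the common part of EXA and EXB
-/

namespace Pool.Agent.ZAR.H29

open MvPowerSeries

/-- The substitution of the unknowns. -/
noncomputable def EE {L : Type} [Field L] (s : Fin 5 → MvPowerSeries (Fin 2) L) :
    Fin 2 ⊕ Fin 5 → MvPowerSeries (Fin 2) L :=
  Sum.elim (fun a => (X a : MvPowerSeries (Fin 2) L)) s

theorem EE_const {L : Type} [Field L] {s : Fin 5 → MvPowerSeries (Fin 2) L}
    (hs : ∀ k, constantCoeff (s k) = 0) : ∀ k, constantCoeff (EE s k) = 0 := by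
  rintro (a | k)
  · simp [EE]
  · exact hs k

/-- The common existence lemma. -/
theorem exists_sol_aux {L : Type} [Field L] (N : Matrix (Fin 5) (Fin 5) L)
    (q : Fin 5 → Fin 5 → MvPowerSeries (Fin 5 ⊕ Fin 5) L)
    (hq : ∀ i j, constantCoeff (q i j) = N i j)
    (w : Fin 5 → L) (y4 : L)
    (a b : Fin 5 → MvPowerSeries (Fin 2 ⊕ Fin 5) L)
    (ha0 : ∀ j, constantCoeff (a j) = 0) (hb0 : ∀ j, constantCoeff (b j) = 0)
    (ha1 : ∀ j k, constantCoeff (pderiv L (Sum.inr k) (a j)) = 0)
    (hb1 : ∀ j k, constantCoeff (pderiv L (Sum.inr k) (b j)) = 0)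
    (g : Fin 5 → MvPowerSeries (Fin 2 ⊕ Fin 5) L)
    (h0 : ∀ i, ∑ j, N i j * constantCoeff (g j) = w i * y4)
    (hinj : ∀ c : Fin 5 → L, (∀ i, ∑ j, N i j *
      (∑ k, constantCoeff (pderiv L (Sum.inr k) (g j)) * c k) - w i * c 4 = 0) → c = 0) :
    ∃ s : Fin 5 → MvPowerSeries (Fin 2) L, (∀ k, constantCoeff (s k) = 0) ∧
      ∀ i, ∑ j, subst (EE s) (g j) *
        subst (Sum.elim (fun j => subst (EE s) (a j)) (fun j => subst (EE s) (b j))) (q i j) =
        C (w i) * (C y4 + s 4) := by
  classical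
  have hab : ∀ k, constantCoeff (Sum.elim a b k) = 0 := by
    rintro (k | k)
    · exact ha0 k
    · exact hb0 k
  let F : Fin 5 → MvPowerSeries (Fin 2 ⊕ Fin 5) L := fun i =>
    ∑ j, g j * subst (Sum.elim a b) (q i j) - C (w i) * (C y4 + X (Sum.inr 4))
  have hF0 : ∀ i, constantCoeff (F i) = 0 := by
    intro i
    simp only [F, map_sub, map_sum, map_mul, ZEQ.constantCoeff_subst_eq hab, hq, map_add,
      constantCoeff_C, constantCoeff_X, add_zero]
    rw [← h0 i, sub_eq_zero]
    exact Finset.sum_congr rfl fun j _ => mul_comm _ _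
  have hdq : ∀ i j k, constantCoeff (pderiv L (Sum.inr k) (subst (Sum.elim a b) (q i j))) = 0 := by
    intro i j k
    rw [ZEQ.pderiv_subst hab, map_sum]
    refine Finset.sum_eq_zero fun l _ => ?_
    rw [map_mul]
    rcases l with l | l
    · rw [Sum.elim_inl, ha1, mul_zero]
    · rw [Sum.elim_inr, hb1, mul_zero]
  have hJ : ∀ i k, constantCoeff (pderiv L (Sum.inr k) (F i)) =
      ∑ j, N i j * constantCoeff (pderiv L (Sum.inr k) (g j)) - w i * (if k = 4 then 1 else 0) := by
    intro i k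
    simp only [F, map_sub, map_sum, Derivation.leibniz, smul_eq_mul, map_add, map_mul, hdq,
      ZEQ.constantCoeff_subst_eq hab, hq, mul_zero, zero_add, pderiv_C, constantCoeff_C, add_zero,
      map_zero]
    congr 1
    by_cases hk : k = 4
    · subst hk; simp
    · rw [if_neg hk, pderiv_X_of_ne]
      · simp
      · intro h; exact hk (Sum.inr_injective h).symm
  obtain ⟨s, hs0, hs⟩ := ZEQ.exists_implicit F hF0 (by
    intro hdet
    obtain ⟨c, hc0, hc⟩ := Matrix.exists_mulVec_eq_zero_iff.mpr hdet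
    apply hc0
    apply hinj
    intro i
    have h1 := congrFun hc i
    rw [Matrix.mulVec, dotProduct] at h1
    simp only [Matrix.of_apply, hJ, Pi.zero_apply] at h1
    rw [← h1]
    simp only [sub_mul, Finset.sum_sub_distrib]
    congr 1
    · simp only [Finset.mul_sum, Finset.sum_mul]
      rw [Finset.sum_comm]
      refine Finset.sum_congr rfl fun j _ => Finset.sum_congr rfl fun k _ => ?_
      ring
    · rw [Finset.sum_eq_single 4]
      · simp
      · intro k _ hk; rw [if_neg hk]; ring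
      · intro h; exact absurd (Finset.mem_univ _) h)
  refine ⟨s, hs0, fun i => ?_⟩
  have hE := EE_const hs0
  have hsE := hasSubst_of_constantCoeff_zero hE
  have h1 : subst (EE s) (F i) = 0 := hs i
  rw [← substAlgHom_apply (R := L) hsE] at h1
  simp only [F, map_sub, map_sum, map_mul, map_add] at h1
  rw [substAlgHom_X, sub_eq_zero] at h1
  have hC : ∀ c : L, substAlgHom (R := L) hsE (C c : MvPowerSeries (Fin 2 ⊕ Fin 5) L) = C c :=
    fun c => by rw [substAlgHom_apply]; exact ZEQ.subst_C' hE c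
  rw [hC, hC] at h1
  simp only [substAlgHom_apply] at h1
  have hr : EE s (Sum.inr 4) = s 4 := rfl
  rw [hr] at h1
  rw [← h1]
  refine Finset.sum_congr rfl fun j _ => ?_
  rw [ZEQ.subst_subst' hab hE]
  congr 1
  congr 1
  funext k
  rcases k with k | k <;> rfl

end Pool.Agent.ZAR.H29
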