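import Pool.Agent.Helper29_ZAR.ExAux

/-!
# Universal unknowns for the existence of the secant surfaces
-/

namespace Pool.Agent.ZAR.H29

open MvPowerSeries

section

variable {L : Type} [Field L]

/-- the first parameter -/
noncomputable def xx (L : Type) [Field L] : MvPowerSeries (Fin 2 ⊕ Fin 5) L := X (Sum.inl 0)

/-- the second parameter -/
noncomputable def tt (L : Type) [Field L] : MvPowerSeries (Fin 2 ⊕ Fin 5) L := X (Sum.inl 1)

/-- the unknown `η` -/
noncomputable def etU (η0 : L) : MvPowerSeries (Fin 2 ⊕ Fin 5) L := C η0 + X (Sum.inr 0)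

/-- the unknowns `d` -/
noncomputable def dU (δ : Fin 3 → L) : Fin 3 → MvPowerSeries (Fin 2 ⊕ Fin 5) L :=
  ![C (δ 0) + X (Sum.inr 1), C (δ 1) + X (Sum.inr 2), C (δ 2) + X (Sum.inr 3)]

/-- universal parameters of the first family -/
noncomputable def pU (η0 : L) : Fin 3 → MvPowerSeries (Fin 2 ⊕ Fin 5) L :=
  ![xx L, xx L * etU η0, tt L]

/-- universal parameters of the second family -/
noncomputable def pU' (η0 : L) (δ : Fin 3 → L) : Fin 3 → MvPowerSeries (Fin 2 ⊕ Fin 5) L :=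
  ![xx L - xx L ^ 3 * dU δ 0, xx L * etU η0 - xx L ^ 3 * dU δ 1, tt L - xx L ^ 3 * dU δ 2]

theorem pU_const (η0 : L) : ∀ l, constantCoeff (pU η0 l) = 0 := by
  intro l
  fin_cases l <;> simp [pU, xx, tt]

theorem pU'_const (η0 : L) (δ : Fin 3 → L) : ∀ l, constantCoeff (pU' η0 δ l) = 0 := by
  intro l
  fin_cases l <;> simp [pU', xx, tt]

theorem pU_deriv (η0 : L) (l : Fin 3) (k : Fin 5) :
    constantCoeff (pderiv L (Sum.inr k) (pU η0 l)) = 0 := by
  fin_cases l <;> simp [pU, xx, tt, Derivation.leibniz, pderiv_X]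

theorem pU'_deriv (η0 : L) (δ : Fin 3 → L) (l : Fin 3) (k : Fin 5) :
    constantCoeff (pderiv L (Sum.inr k) (pU' η0 δ l)) = 0 := by
  fin_cases l <;> simp [pU', xx, tt, Derivation.leibniz, pderiv_X, Derivation.leibniz_pow]

/-- A family along universal parameters. -/
theorem fam_const {F : MvPowerSeries (Fin 3) L} (hF : constantCoeff F = 0)
    {p : Fin 3 → MvPowerSeries (Fin 2 ⊕ Fin 5) L} (hp : ∀ l, constantCoeff (p l) = 0) :
    constantCoeff (subst p F) = 0 :=
  ZEQ.constantCoeff_subst' hp F hF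

theorem fam_deriv (F : MvPowerSeries (Fin 3) L)
    {p : Fin 3 → MvPowerSeries (Fin 2 ⊕ Fin 5) L} (hp : ∀ l, constantCoeff (p l) = 0)
    (hp' : ∀ l k, constantCoeff (pderiv L (Sum.inr k) (p l)) = 0) (k : Fin 5) :
    constantCoeff (pderiv L (Sum.inr k) (subst p F)) = 0 := by
  rw [ZEQ.pderiv_subst hp, map_sum]
  refine Finset.sum_eq_zero fun l _ => ?_
  rw [map_mul, hp', mul_zero]

/-- the solution `η` -/
noncomputable def etS (η0 : L) (s : Fin 5 → MvPowerSeries (Fin 2) L) : MvPowerSeries (Fin 2) L :=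
  C η0 + s 0

/-- the solution `d` -/
noncomputable def dS (δ : Fin 3 → L) (s : Fin 5 → MvPowerSeries (Fin 2) L) :
    Fin 3 → MvPowerSeries (Fin 2) L :=
  ![C (δ 0) + s 1, C (δ 1) + s 2, C (δ 2) + s 3]

variable {s : Fin 5 → MvPowerSeries (Fin 2) L} (hs : ∀ k, constantCoeff (s k) = 0)

/-- the substitution of the unknowns as a homomorphism -/
noncomputable def EH : MvPowerSeries (Fin 2 ⊕ Fin 5) L →ₐ[L] MvPowerSeries (Fin 2) L :=
  substAlgHom (hasSubst_of_constantCoeff_zero (EE_const hs))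

theorem EH_apply (f : MvPowerSeries (Fin 2 ⊕ Fin 5) L) : EH hs f = subst (EE s) f := by
  rw [EH, substAlgHom_apply]

theorem EH_xx : EH hs (xx L) = X 0 := by
  rw [EH, xx, substAlgHom_X]; rfl

theorem EH_tt : EH hs (tt L) = X 1 := by
  rw [EH, tt, substAlgHom_X]; rfl

theorem EH_C (c : L) : EH hs (C c : MvPowerSeries (Fin 2 ⊕ Fin 5) L) = C c :=
  (EH hs).commutes c

theorem EH_Y (k : Fin 5) : EH hs (X (Sum.inr k) : MvPowerSeries (Fin 2 ⊕ Fin 5) L) = s k := by
  rw [EH, substAlgHom_X]; rfl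

theorem EH_etU (η0 : L) : EH hs (etU η0) = etS η0 s := by
  rw [etU, map_add, EH_C, EH_Y, etS]

theorem EH_dU (δ : Fin 3 → L) (k : Fin 3) : EH hs (dU δ k) = dS δ s k := by
  fin_cases k <;> simp [dU, dS, EH_C, EH_Y]

theorem EH_pU (η0 : L) (l : Fin 3) : EH hs (pU η0 l) = prm (etS η0 s) l := by
  fin_cases l <;> simp [pU, prm, EH_xx, EH_tt, EH_etU]

theorem EH_pU' (η0 : L) (δ : Fin 3 → L) (l : Fin 3) :
    EH hs (pU' η0 δ l) = prm' (etS η0 s) (dS δ s) l := by
  fin_cases l <;> simp [pU', prm', EH_xx, EH_tt, EH_etU, EH_dU]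

include hs in
theorem EH_fam (F : MvPowerSeries (Fin 3) L) (η0 : L) :
    subst (EE s) (subst (pU η0) F) = subst (prm (etS η0 s)) F := by
  rw [ZEQ.subst_subst' (pU_const η0) (EE_const hs)]
  congr 1
  funext l
  rw [← EH_apply hs, EH_pU]

include hs in
theorem EH_fam' (F : MvPowerSeries (Fin 3) L) (η0 : L) (δ : Fin 3 → L) :
    subst (EE s) (subst (pU' η0 δ) F) = subst (prm' (etS η0 s) (dS δ s)) F := by
  rw [ZEQ.subst_subst' (pU'_const η0 δ) (EE_const hs)]
  congr 1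
  funext l
  rw [← EH_apply hs, EH_pU']

end

/-- No linear form over `K` kills the kernel vector of a generic matrix. -/
theorem kv_ne {K L : Type} [Field K] [Field L] [Algebra K L] {n : ℕ}
    (u : Fin n → Fin (n + 1) → L) (hu : Gen K u) (μ : Fin (n + 1) → K) (hμ : μ ≠ 0) :
    ∑ j, algebraMap K L (μ j) * kv u j ≠ 0 := by
  have h := ZEQ.sum_mul_kerVec_ne_zero (Matrix.of u) hu μ hμ
  intro h0
  apply h
  rw [← h0]
  rfl

/-- The inverse of the Jacobian matrix applied to the kernel vector: no linear form over `K` kills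
it. -/
theorem inv_kv_ne {K L : Type} [Field K] [Field L] [Algebra K L] {n : ℕ}
    (u : Fin n → Fin (n + 1) → L) (hu : Gen K u) (N : Matrix (Fin (n + 1)) (Fin (n + 1)) K)
    (hN : N.det ≠ 0) (μ : Fin (n + 1) → K) (hμ : μ ≠ 0) :
    ∑ j, algebraMap K L (μ j) * ((N⁻¹).map (algebraMap K L)).mulVec (kv u) j ≠ 0 := by
  have hNu : IsUnit N.det := isUnit_iff_ne_zero.mpr hN
  have h := kv_ne u hu (Matrix.vecMul μ N⁻¹) (by
    intro h0
    apply hμ
    have h2 : Matrix.vecMul (Matrix.vecMul μ N⁻¹) N = 0 := by rw [h0, Matrix.zero_vecMul]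
    rw [Matrix.vecMul_vecMul, Matrix.nonsing_inv_mul N hNu, Matrix.vecMul_one] at h2
    exact h2)
  intro h0
  apply h
  rw [← h0]
  have e1 : ∑ j, algebraMap K L (μ j) * ((N⁻¹).map (algebraMap K L)).mulVec (kv u) j =
      (fun j => algebraMap K L (μ j)) ⬝ᵥ ((N⁻¹).map (algebraMap K L)).mulVec (kv u) := rfl
  rw [e1, Matrix.dotProduct_mulVec]
  refine Finset.sum_congr rfl fun j _ => ?_
  congr 1
  simp only [Matrix.vecMul, dotProduct, Matrix.map_apply, map_sum, map_mul]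

end Pool.Agent.ZAR.H29
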