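import Pool.Agent.Helper29_ZAR.ExCommon

/-!
# From a universal quotient to a secant surface (common for EXA and EXB)
-/

namespace Pool.Agent.ZAR.H29

open MvPowerSeries

theorem pderiv_bc' {K L σ : Type} [Field K] [Field L] [Algebra K L] (j : σ)
    (f : MvPowerSeries σ K) : pderiv L j (bc K L σ f) = bc K L σ (pderiv K j f) := by
  ext d
  simp [coeff_pderiv]

theorem constantCoeff_bc' {K L σ : Type} [Field K] [Field L] [Algebra K L]
    (f : MvPowerSeries σ K) :
    constantCoeff (bc K L σ f) = algebraMap K L (constantCoeff f) := by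
  rw [← coeff_zero_eq_constantCoeff_apply, ← coeff_zero_eq_constantCoeff_apply, coeff_map]

/-- The Jacobian matrix over `L`. -/
noncomputable def jacL {K : Type} (L : Type) [Field K] [Field L] [Algebra K L]
    (φ : Fin 5 → MvPowerSeries (Fin 5) K) : Matrix (Fin 5) (Fin 5) L :=
  (jac0 φ).map (algebraMap K L)

/-- The inverse of the Jacobian matrix applied to the kernel vector. -/
noncomputable def wv {K L : Type} [Field K] [Field L] [Algebra K L]
    (u : Fin 4 → Fin 5 → L) (φ : Fin 5 → MvPowerSeries (Fin 5) K) : Fin 5 → L :=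
  (((jac0 φ)⁻¹).map (algebraMap K L)).mulVec (kv u)

theorem jacL_mul_inv {K L : Type} [Field K] [Field L] [Algebra K L]
    {φ : Fin 5 → MvPowerSeries (Fin 5) K} (hφ : (jac0 φ).det ≠ 0) :
    jacL L φ * ((jac0 φ)⁻¹).map (algebraMap K L) = 1 := by
  have h : IsUnit (jac0 φ).det := isUnit_iff_ne_zero.mpr hφ
  rw [jacL, ← Matrix.map_mul, Matrix.mul_nonsing_inv _ h]
  exact Matrix.map_one _ (map_zero _) (map_one _)

theorem inv_mul_jacL {K L : Type} [Field K] [Field L] [Algebra K L]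
    {φ : Fin 5 → MvPowerSeries (Fin 5) K} (hφ : (jac0 φ).det ≠ 0) :
    ((jac0 φ)⁻¹).map (algebraMap K L) * jacL L φ = 1 := by
  have h : IsUnit (jac0 φ).det := isUnit_iff_ne_zero.mpr hφ
  rw [jacL, ← Matrix.map_mul, Matrix.nonsing_inv_mul _ h]
  exact Matrix.map_one _ (map_zero _) (map_one _)

theorem jacL_wv {K L : Type} [Field K] [Field L] [Algebra K L]
    (u : Fin 4 → Fin 5 → L) {φ : Fin 5 → MvPowerSeries (Fin 5) K} (hφ : (jac0 φ).det ≠ 0)
    (i : Fin 5) : ∑ j, jacL L φ i j * wv u φ j = kv u i := by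
  have h : (jacL L φ).mulVec (wv u φ) = kv u := by
    rw [wv, Matrix.mulVec_mulVec, jacL_mul_inv hφ, Matrix.one_mulVec]
  exact congrFun h i

theorem jacL_inj {K L : Type} [Field K] [Field L] [Algebra K L]
    {φ : Fin 5 → MvPowerSeries (Fin 5) K} (hφ : (jac0 φ).det ≠ 0) (z : Fin 5 → L)
    (hz : ∀ i, ∑ j, jacL L φ i j * z j = 0) : z = 0 := by
  have h : (jacL L φ).mulVec z = 0 := by
    funext i
    exact hz i
  have h2 : (((jac0 φ)⁻¹).map (algebraMap K L)).mulVec ((jacL L φ).mulVec z) = 0 := by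
    rw [h, Matrix.mulVec_zero]
  rw [Matrix.mulVec_mulVec, inv_mul_jacL hφ, Matrix.one_mulVec] at h2
  exact h2

/-- The existence of a secant surface from the data at the origin. -/
theorem exists_sol {K L : Type} [Field K] [Field L] [Algebra K L] (u : Fin 4 → Fin 5 → L)
    (φ : Fin 5 → MvPowerSeries (Fin 5) K) (hφ : (jac0 φ).det ≠ 0)
    (F F' : Fin 5 → MvPowerSeries (Fin 3) K) (hF : ∀ j, constantCoeff (F j) = 0)
    (hF' : ∀ j, constantCoeff (F' j) = 0)
    (G : MvPowerSeries (Fin 2) L → (Fin 3 → MvPowerSeries (Fin 2) L) →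
      Fin 5 → MvPowerSeries (Fin 2) L)
    (hG : ∀ η d j, subst (prm η) (bc K L (Fin 3) (F j)) -
      subst (prm' η d) (bc K L (Fin 3) (F' j)) = X 0 ^ 3 * G η d j)
    (η0 : L) (δ : Fin 3 → L) (ρ0 : L) (g : Fin 5 → MvPowerSeries (Fin 2 ⊕ Fin 5) L)
    (hg : ∀ s : Fin 5 → MvPowerSeries (Fin 2) L, (∀ k, constantCoeff (s k) = 0) → ∀ j,
      subst (EE s) (g j) = G (etS η0 s) (dS δ s) j)
    (h0 : ∀ j, constantCoeff (g j) = wv u φ j * ρ0)
    (hinj : ∀ c : Fin 5 → L, (∀ j, ∑ k, constantCoeff (pderiv L (Sum.inr k) (g j)) * c k =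
      wv u φ j * c 4) → c = 0) (hη : η0 ≠ 0) (hρ : ρ0 ≠ 0) :
    ∃ (η : MvPowerSeries (Fin 2) L) (d : Fin 3 → MvPowerSeries (Fin 2) L)
      (ρ : MvPowerSeries (Fin 2) L), Sol u φ F F' η d ρ ∧ constantCoeff η ≠ 0 ∧
      constantCoeff ρ ≠ 0 := by
  classical
  have hadl := fun i => had L (Fin 5) (bc K L (Fin 5) (φ i))
  choose q hq using hadl
  have hq0 : ∀ i j, constantCoeff (q i j) = jacL L φ i j := by
    intro i j
    have h1 := (hq i (Fin 0) (fun _ => 0) (fun _ => 0) (by simp) (by simp)).2 j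
    have h2 : ∀ k, constantCoeff
        ((Sum.elim (fun _ => 0) (fun _ => 0) : Fin 5 ⊕ Fin 5 → MvPowerSeries (Fin 0) L) k) = 0 := by
      rintro (k | k) <;> simp
    have h3 := congrArg constantCoeff h1
    rw [ZEQ.constantCoeff_subst_eq h2, ZEQ.constantCoeff_subst_eq (by simp), pderiv_bc',
      constantCoeff_bc'] at h3
    rw [h3]
    rfl
  have hbF : ∀ j, constantCoeff (bc K L (Fin 3) (F j)) = 0 := by
    intro j; rw [constantCoeff_bc', hF, map_zero]
  have hbF' : ∀ j, constantCoeff (bc K L (Fin 3) (F' j)) = 0 := by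
    intro j; rw [constantCoeff_bc', hF', map_zero]
  obtain ⟨s, hs0, hs⟩ := exists_sol_aux (jacL L φ) q hq0 (kv u) ρ0
    (fun j => subst (pU η0) (bc K L (Fin 3) (F j)))
    (fun j => subst (pU' η0 δ) (bc K L (Fin 3) (F' j)))
    (fun j => fam_const (hbF j) (pU_const η0))
    (fun j => fam_const (hbF' j) (pU'_const η0 δ))
    (fun j k => fam_deriv _ (pU_const η0) (pU_deriv η0) k)
    (fun j k => fam_deriv _ (pU'_const η0 δ) (pU'_deriv η0 δ) k)
    g
    (by
      intro i
      rw [← jacL_wv u hφ i, Finset.sum_mul]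
      refine Finset.sum_congr rfl fun j _ => ?_
      rw [h0 j]; ring)
    (by
      intro c hc
      apply hinj
      have h1 : (fun j => ∑ k, constantCoeff (pderiv L (Sum.inr k) (g j)) * c k -
          wv u φ j * c 4) = 0 := by
        apply jacL_inj hφ
        intro i
        rw [← hc i, ← jacL_wv u hφ i, Finset.sum_mul, ← Finset.sum_sub_distrib]
        refine Finset.sum_congr rfl fun j _ => ?_
        ring
      intro j
      exact sub_eq_zero.mp (congrFun h1 j))
  refine ⟨etS η0 s, dS δ s, C ρ0 + s 4, ?_, ?_, ?_⟩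
  · intro i
    have hA : ∀ j, constantCoeff (subst (prm (etS η0 s)) (bc K L (Fin 3) (F j))) = 0 := by
      intro j
      rw [← EH_fam hs0]
      exact ZEQ.constantCoeff_subst' (EE_const hs0) _ (fam_const (hbF j) (pU_const η0))
    have hB : ∀ j, constantCoeff (subst (prm' (etS η0 s) (dS δ s))
        (bc K L (Fin 3) (F' j))) = 0 := by
      intro j
      rw [← EH_fam' hs0]
      exact ZEQ.constantCoeff_subst' (EE_const hs0) _ (fam_const (hbF' j) (pU'_const η0 δ))
    have h1 := (hq i (Fin 2) _ _ hA hB).1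
    rw [h1]
    have h2 := hs i
    simp only [EH_fam hs0, EH_fam' hs0, hg s hs0] at h2
    have h3 : C (kv u i) * X 0 ^ 3 * (C ρ0 + s 4) =
        X 0 ^ 3 * (C (kv u i) * (C ρ0 + s 4) : MvPowerSeries (Fin 2) L) := by ring
    rw [h3, ← h2, Finset.mul_sum]
    refine Finset.sum_congr rfl fun j _ => ?_
    rw [hG]; ring
  · rw [etS, map_add, hs0, constantCoeff_C, add_zero]; exact hη
  · rw [map_add, hs0, constantCoeff_C, add_zero]; exact hρ

end Pool.Agent.ZAR.H29
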