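import Pool.Agent.ZAR.Stmts
import Pool.Agent.ZEQ.IFT

/-!
# CHA and HAD
-/

namespace Pool.Agent.ZAR.H29

open MvPowerSeries

theorem cha : CHAStmt := fun _ _ _ _ _ ha f j => ZEQ.pderiv_subst ha j f

theorem had : HADStmt := by
  intro K _ σ _ f
  obtain ⟨q, h1, h2⟩ := ZEQ.exists_hadamard' f
  exact ⟨q, fun τ _ a b ha hb => ⟨h1 τ a b ha hb, fun i => h2 τ a ha i⟩⟩

end Pool.Agent.ZAR.H29
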